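import Pool.Agent.Y885.KP4

/-!
# Joint correlations of the von Mangoldt and Liouville functions, up to very few elements of arbitrary sets which meet
every interval `[x, l x]`, in the shifts of the Liouville function

All joint correlations with a bounded number of factors `Λ` at arbitrary linear forms and with at least one factor `λ`
save an arbitrary power of the logarithm, at every scale `N`, after the addition to each shift of the Liouville
function of the sum of `O((log log N) ^ 2)` elements of an arbitrary set which contains an element of every interval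
`[x, l x]`. The same sets of summands serve for all the products of some of the factors and for all residue classes.

Used from the starting files: the library `Pool.Agent.Y885` (helper885) on shifts which are sums of elements of such
sets, based on the bounds for the exponential sum over the Liouville function (`Pool.Agent.H373R2.T7`,
`Pool.Agent.H807R2.Dav`, `Pool.Agent.W93`).
-/

set_option autoImplicit false

namespace Pool.Agent.Results.MP_e6fa8b_nt.ElementsOfAnySets

open Finset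

/-- The Liouville function. -/
def lam (n : ℕ) : ℤ := (-1) ^ ArithmeticFunction.cardFactors n

/-- The sum over the `n` with `1 ≤ n ≤ X` and `n ≡ ρ (mod q)` of `θ n ∏ j, Λ (c j n + d j) ∏ i ∈ I, λ(a i n + b i)`. -/
noncomputable def jointSum {r k : ℕ} (θ : ℕ → ℂ) (c d : Fin r → ℕ) (a b : Fin k → ℕ) (I : Finset (Fin k))
    (q ρ X : ℕ) : ℂ :=
  ∑ n ∈ (Icc 1 X).filter (fun n => n ≡ ρ [MOD q]),
    θ n * (∏ j, (ArithmeticFunction.vonMangoldt (c j * n + d j) : ℂ)) * ∏ i ∈ I, ((lam (a i * n + b i) : ℤ) : ℂ)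

/-- For all `l ≥ 2`, `P ≥ 1`, `κ`, `U` and `r` there is a constant `C` such that for all `H` and `B` there is an `N₀`
with the following property. Let `N ≥ N₀` and `2 ^ k ≤ log ^ κ N`. Let `A 1, ..., A k` be arbitrary sets of integers
each of which contains an element of every interval `[x, l x]`, `x ≥ 1` (`C` and `N₀` do not depend on these sets), let
`a i ≥ 1` and `0 ≤ h i ≤ B N` be arbitrary integers, and for each of at most `log ^ κ N` indices `m` let
`c m j * n + d m j`, for `j < r`, be arbitrary linear forms with coefficients between `0` and `N ^ B`, and `θ m` an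
arbitrary function bounded by `1` (for example `1`, or products of values of `λ` at other linear forms). Then there
are sets `S i` of at most `C (log log N) ^ 2` elements of `A i`, all between `log ^ H N` and `N / log ^ H N`, with
sums divisible by `P`, such that the sums `b i` of `h i` and of the elements of `S i` satisfy
`|∑ n ≤ X, n ≡ ρ (mod q), θ m n * ∏ j < r, Λ(c m j * n + d m j) * ∏ i ∈ I, λ(a i * n + b i)| ≤ N / log ^ U N` for all
`m`, all nonempty sets `I` of indices, all residue classes with `q ≤ log ^ κ N` and all `X` with `a i * X ≤ B N` for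
`i ∈ I`. -/
theorem result (l P κ U r : ℕ) (hl : 2 ≤ l) (hP : 1 ≤ P) : ∃ C : ℝ, ∀ H B : ℕ, ∃ N₀ : ℕ, ∀ N : ℕ, N₀ ≤ N →
    ∀ k : ℕ, (2 : ℝ) ^ k ≤ Real.log N ^ κ →
    ∀ A : Fin k → Set ℕ, (∀ i, ∀ x : ℕ, 1 ≤ x → ∃ s ∈ A i, x ≤ s ∧ s ≤ l * x) →
    ∀ a h : Fin k → ℕ, (∀ i, 1 ≤ a i ∧ h i ≤ B * N) →
    ∀ L : ℕ, (L : ℝ) ≤ Real.log N ^ κ → ∀ (c d : Fin L → Fin r → ℕ) (θ : Fin L → ℕ → ℂ),
    (∀ m j, c m j ≤ N ^ B ∧ d m j ≤ N ^ B) → (∀ m n, ‖θ m n‖ ≤ 1) →
    ∃ S : Fin k → Finset ℕ,
      (∀ i, ∀ s ∈ S i, s ∈ A i ∧ Real.log N ^ H ≤ s ∧ (s : ℝ) ≤ N / Real.log N ^ H) ∧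
      (∀ i, ((S i).card : ℝ) ≤ C * Real.log (Real.log N) ^ 2 ∧ P ∣ ∑ s ∈ S i, s) ∧
      ∀ m, ∀ I : Finset (Fin k), I.Nonempty → ∀ q ρ : ℕ, 1 ≤ q → (q : ℝ) ≤ Real.log N ^ κ →
        ∀ X : ℕ, (∀ i ∈ I, a i * X ≤ B * N) →
        ‖jointSum (θ m) (c m) (d m) a (fun i => h i + ∑ s ∈ S i, s) I q ρ X‖ ≤ N / Real.log N ^ U := by
  obtain ⟨C, hC⟩ := Pool.Agent.Y885.las_kptq l P (κ + 2 * r) U hl hP Pool.Agent.Y885.laR Pool.Agent.Y885.fine_lam
  refine ⟨C, fun H B => ?_⟩
  obtain ⟨N₀, h0⟩ := hC H B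
  refine ⟨N₀ + B + 3 ^ (B + 2) + 3, fun N hN k hk A hA a h hah L hL c d θ hcd hθ => ?_⟩
  obtain ⟨P3, hP3⟩ : ∃ P3 : ℕ, P3 = 3 ^ (B + 2) := ⟨_, rfl⟩
  rw [← hP3] at hN
  have hN0 : (0 : ℝ) < N := by exact_mod_cast (by omega : 0 < N)
  have hlogB : ((B + 2 : ℕ) : ℝ) ≤ Real.log N := by
    rw [Real.le_log_iff_exp_le hN0]
    have h1 : Real.exp ((B + 2 : ℕ) : ℝ) ≤ (3 : ℝ) ^ (B + 2) := by
      rw [show ((B + 2 : ℕ) : ℝ) = ((B + 2 : ℕ) : ℝ) * 1 by ring, Real.exp_nat_mul]
      exact pow_le_pow_left₀ (Real.exp_pos _).le (by linarith [Real.exp_one_lt_d9]) _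
    refine h1.trans ?_
    exact_mod_cast (by rw [← hP3]; omega : 3 ^ (B + 2) ≤ N)
  have hlog1 : 1 ≤ Real.log N := by
    have : (1 : ℝ) ≤ ((B + 2 : ℕ) : ℝ) := by exact_mod_cast (by omega : 1 ≤ B + 2)
    linarith
  have hκ : Real.log (N : ℝ) ^ κ ≤ Real.log (N : ℝ) ^ (κ + 2 * r) := pow_le_pow_right₀ hlog1 (by omega)
  have hΛ : ∀ m j n, n ≤ B * N → |ArithmeticFunction.vonMangoldt (c m j * n + d m j)| ≤ Real.log N ^ 2 := by
    intro m j n hn
    rw [abs_of_nonneg ArithmeticFunction.vonMangoldt_nonneg]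
    refine ArithmeticFunction.vonMangoldt_le_log.trans ?_
    have e1 : c m j * n + d m j ≤ N ^ (B + 2) := by
      calc c m j * n + d m j ≤ N ^ B * (B * N) + N ^ B := add_le_add (Nat.mul_le_mul (hcd m j).1 hn) (hcd m j).2
        _ ≤ N ^ B * (B * N) + N ^ B * N := by
            apply add_le_add le_rfl (Nat.le_mul_of_pos_right _ (by omega))
        _ = N ^ B * ((B + 1) * N) := by ring
        _ ≤ N ^ B * (N * N) := Nat.mul_le_mul_left _ (Nat.mul_le_mul_right _ (by omega))
        _ = _ := by rw [pow_add]; ring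
    rcases Nat.eq_zero_or_pos (c m j * n + d m j) with h0 | h0
    · rw [h0]
      simp only [Nat.cast_zero, Real.log_zero]
      positivity
    · have e2 : Real.log ((c m j * n + d m j : ℕ) : ℝ) ≤ Real.log ((N ^ (B + 2) : ℕ) : ℝ) :=
        Real.log_le_log (by exact_mod_cast h0) (by exact_mod_cast e1)
      refine e2.trans ?_
      rw [Nat.cast_pow, Real.log_pow, pow_two]
      exact mul_le_mul_of_nonneg_right hlogB (by linarith)
  obtain ⟨S, h1, h2, h3, h4⟩ := h0 k A hA N (by omega) (hk.trans hκ) h (fun i => (hah i).2) L (hL.trans hκ) a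
    (fun m n => θ m n * ∏ j, (ArithmeticFunction.vonMangoldt (c m j * n + d m j) : ℂ)) (fun i => (hah i).1) (by
      intro m n _ hn
      rw [norm_mul, norm_prod]
      have e1 : ∏ j, ‖(ArithmeticFunction.vonMangoldt (c m j * n + d m j) : ℂ)‖ ≤ ∏ _j : Fin r, Real.log N ^ 2 := by
        apply prod_le_prod (fun _ _ => norm_nonneg _)
        intro j _
        rw [Complex.norm_real, Real.norm_eq_abs]
        exact hΛ _ j _ hn
      rw [prod_const, card_univ, Fintype.card_fin, ← pow_mul] at e1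
      calc _ ≤ 1 * Real.log N ^ (2 * r) := mul_le_mul (hθ _ _) e1 (prod_nonneg fun _ _ => norm_nonneg _) zero_le_one
        _ = Real.log N ^ (2 * r) := one_mul _
        _ ≤ _ := pow_le_pow_right₀ hlog1 (by omega))
  refine ⟨S, h1, fun i => ⟨h2 i, h3 i⟩, fun m I hI q ρ hq hqN X hX => ?_⟩
  refine le_trans (le_of_eq ?_) (h4 m I hI q hq (hqN.trans hκ) ρ X hX)
  congr 1
  unfold jointSum lam Pool.Agent.Y885.laR
  apply sum_congr rfl
  intro n _
  congr 1
  apply prod_congr rfl
  intro i _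
  push_cast
  rfl

end Pool.Agent.Results.MP_e6fa8b_nt.ElementsOfAnySets
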