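import Pool.Agent.X31.G1

/-!
# Joint correlations of the von Mangoldt and Liouville functions: all the shifts near generalised polynomials

`f(t) = ∑ a_x t ^ x` is an arbitrary finite real combination of real powers of `t` with a positive largest exponent `c`
(for instance `t ^ {3/2}`, `√2 t ^ 3 + t`). For almost all elements `m` of an ARBITRARY dense set `A ⊆ {1, ..., Y}`,
`Y ^ c ≈ N` (for instance: the primes), ALL integers `s` with `|s - (b + f(m))| ≤ log ^ D N` are good shifts of one Liouville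
factor: the correlations of `λ(α n + s)` with arbitrary products of values of the von Mangoldt function at linear forms
and with arbitrary functions bounded by `1` (for example products of values of `λ` at arbitrary other linear forms) save an
arbitrary power of the logarithm.

The bound for the real additive energy of all generalised polynomials is from `Pool.Agent.X31` (`gp_EB`, in this
run); the correlations for families with a sparse large spectrum are from `Pool.Agent.X107.JF` (helper107), the bound for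
the exponential sums with `λ` is from the starting files (`Pool.Agent.H373R2.T7.sup_liou`).
-/

set_option autoImplicit false

namespace Pool.Agent.Results.MP_e6fa8b_nt.GeneralisedPolynomialShifts

open Finset

/-- the generalised polynomial with the exponents `x ∈ F` and the coefficients `a x` -/
noncomputable def f (F : Finset ℝ) (a : ℝ → ℝ) (t : ℝ) : ℝ := ∑ x ∈ F, a x * t ^ x

/-- The Liouville function on the integers, `0` at the integers `m ≤ 0`, with complex values. -/
noncomputable def lam (m : ℤ) : ℂ := if 1 ≤ m then (-1) ^ ArithmeticFunction.cardFactors m.toNat else 0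

lemma log_large (B N : ℕ) (h : 3 ^ (B + 2) ≤ N) : ((B + 2 : ℕ) : ℝ) ≤ Real.log N := by
  have hN : 0 < N := lt_of_lt_of_le (by positivity) h
  have hN0 : (0 : ℝ) < N := by exact_mod_cast hN
  rw [Real.le_log_iff_exp_le hN0]
  have h1 : Real.exp ((B + 2 : ℕ) : ℝ) ≤ (3 : ℝ) ^ (B + 2) := by
    rw [show ((B + 2 : ℕ) : ℝ) = ((B + 2 : ℕ) : ℝ) * 1 by ring, Real.exp_nat_mul]
    exact pow_le_pow_left₀ (Real.exp_pos _).le (by linarith [Real.exp_one_lt_d9]) _
  refine h1.trans ?_
  exact_mod_cast h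

/-- Let `F` be a finite set of real numbers with the maximum `c > 0`, `a c ≠ 0`, and `f(t) = ∑_{x ∈ F} a x * t ^ x`. Let
`r`, `B`, `D`, `T`, `U` be natural numbers. For all sufficiently large `N`, for all `Y` with
`N / log ^ D N ≤ Y ^ c ≤ N`, for EVERY set `A ⊆ {1, ..., Y}` with at least `Y / log ^ D N` elements and every real number
`b` with `|b| ≤ N`: for each of at most `log ^ T N` indices `l` let `α l ≥ 1`, let `u l j n + h l j`, `j < r`, be
arbitrary linear forms with non-negative coefficients `≤ N ^ B`, and let `θ l : ℕ → ℂ` be an arbitrary function bounded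
by `1`. Then, for all but at most `#A / log ^ U N` elements `m` of `A`, ALL integers `s` with
`|s - (b + f(m))| ≤ log ^ D N` satisfy
`|∑ n ≤ x, θ l n * (∏ j, Λ (u l j * n + h l j)) * λ (α l * n + s)| ≤ N / log ^ U N`
for all `l` and all `x ≤ B N / α l`. -/
theorem result (F : Finset ℝ) (a : ℝ → ℝ) (c : ℝ) (hcF : c ∈ F) (hmax : ∀ x ∈ F, x ≤ c)
    (hac : a c ≠ 0) (hc : 0 < c) (r B D T U : ℕ) :
    ∃ N₀ : ℕ, ∀ N : ℕ, N₀ ≤ N → ∀ Y : ℕ, (N : ℝ) / Real.log N ^ D ≤ (Y : ℝ) ^ c → (Y : ℝ) ^ c ≤ N →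
      ∀ A : Finset ℕ, A ⊆ Icc 1 Y → (Y : ℝ) / Real.log N ^ D ≤ A.card → ∀ b : ℝ, |b| ≤ N →
      ∀ J : ℕ, (J : ℝ) ≤ Real.log N ^ T → ∀ (α : Fin J → ℕ) (u h : Fin J → Fin r → ℕ) (θ : Fin J → ℕ → ℂ),
      (∀ l, 1 ≤ α l) → (∀ l j, u l j ≤ N ^ B ∧ h l j ≤ N ^ B) → (∀ l n, ‖θ l n‖ ≤ 1) →
      ∃ E : Finset ℕ, (E.card : ℝ) ≤ A.card / Real.log N ^ U ∧ ∀ m ∈ A, m ∉ E →
        ∀ s : ℤ, |(s : ℝ) - (b + f F a m)| ≤ Real.log N ^ D → ∀ l, ∀ x : ℕ, α l * x ≤ B * N →
          ‖∑ n ∈ Icc 1 x, θ l n * (∏ j, (ArithmeticFunction.vonMangoldt (u l j * n + h l j) : ℂ)) *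
            lam (α l * n + s)‖ ≤ N / Real.log N ^ U := by
  classical
  obtain ⟨N₁, h1⟩ := Pool.Agent.X31.gp_corr Pool.Agent.H373R2.T7.liR (fun n => by
    unfold Pool.Agent.H373R2.T7.liR
    rw [norm_pow, norm_neg, norm_one, one_pow]) Pool.Agent.H373R2.T7.sup_liou F a c hcF hmax hac hc B D (T + 2 * r) U
  obtain ⟨P3, hP3⟩ : ∃ P3, P3 = 3 ^ (B + 2) := ⟨_, rfl⟩
  refine ⟨N₁ + P3 + B + 3, fun N hN Y hY1 hY2 A hA hAc b hb J hJ α u h θ hα hah hθ => ?_⟩
  have hlogB := log_large B N (by rw [← hP3]; omega)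
  have hlog1 : 1 ≤ Real.log N := by
    have : (1 : ℝ) ≤ ((B + 2 : ℕ) : ℝ) := by exact_mod_cast (by omega : 1 ≤ B + 2)
    linarith
  have hΛ : ∀ l j n, n ≤ B * N → |ArithmeticFunction.vonMangoldt (u l j * n + h l j)| ≤ Real.log N ^ 2 := by
    intro l j n hn
    rw [abs_of_nonneg ArithmeticFunction.vonMangoldt_nonneg]
    refine ArithmeticFunction.vonMangoldt_le_log.trans ?_
    have e1 : u l j * n + h l j ≤ N ^ (B + 2) := by
      calc u l j * n + h l j ≤ N ^ B * (B * N) + N ^ B := add_le_add (Nat.mul_le_mul (hah l j).1 hn) (hah l j).2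
        _ ≤ N ^ B * (B * N) + N ^ B * N := by
            apply add_le_add le_rfl (Nat.le_mul_of_pos_right _ (by omega))
        _ = N ^ B * ((B + 1) * N) := by ring
        _ ≤ N ^ B * (N * N) := Nat.mul_le_mul_left _ (Nat.mul_le_mul_right _ (by omega))
        _ = _ := by rw [pow_add]; ring
    rcases Nat.eq_zero_or_pos (u l j * n + h l j) with h0 | h0
    · rw [h0]
      simp only [Nat.cast_zero, Real.log_zero]
      positivity
    · have e2 : Real.log ((u l j * n + h l j : ℕ) : ℝ) ≤ Real.log ((N ^ (B + 2) : ℕ) : ℝ) :=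
        Real.log_le_log (by exact_mod_cast h0) (by exact_mod_cast e1)
      refine e2.trans ?_
      rw [Nat.cast_pow, Real.log_pow, pow_two]
      exact mul_le_mul_of_nonneg_right hlogB (by linarith)
  have hJT : (J : ℝ) ≤ Real.log N ^ (T + 2 * r) := hJ.trans (pow_le_pow_right₀ hlog1 (by omega))
  exact h1 N (by omega) Y hY1 hY2 A hA hAc b hb J hJT α
    (fun l n => θ l n * ∏ j, (ArithmeticFunction.vonMangoldt (u l j * n + h l j) : ℂ)) hα (by
      intro l n hn1 hn2
      have hn3 : n ≤ B * N := (Nat.le_mul_of_pos_left _ (by have := hα l; omega)).trans hn2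
      rw [norm_mul, norm_prod]
      have e1 : ∏ j, ‖(ArithmeticFunction.vonMangoldt (u l j * n + h l j) : ℂ)‖ ≤
          ∏ _j : Fin r, Real.log N ^ 2 := by
        apply Finset.prod_le_prod (fun _ _ => norm_nonneg _)
        intro j _
        rw [Complex.norm_real, Real.norm_eq_abs]
        exact hΛ _ j _ hn3
      rw [prod_const, card_univ, Fintype.card_fin, ← pow_mul] at e1
      calc _ ≤ 1 * Real.log N ^ (2 * r) := mul_le_mul (hθ _ _) e1 (prod_nonneg fun _ _ => norm_nonneg _) zero_le_one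
        _ = Real.log N ^ (2 * r) := one_mul _
        _ ≤ _ := pow_le_pow_right₀ hlog1 (by omega))

end Pool.Agent.Results.MP_e6fa8b_nt.GeneralisedPolynomialShifts
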