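import Pool.Agent.X31.S2

/-!
# Joint correlations of the von Mangoldt and Liouville functions: all the shifts near the values of polynomials at integers
# with missing digits

`f` is an arbitrary real polynomial of degree `d ≥ 2` (only the size of the leading coefficient is restricted), and `C` is
the set of the integers with `M` digits in base `b` whose digit at `b ^ j` is in `𝒟 j`, where the sets `𝒟 j` of allowed
digits are arbitrary with at least TWO elements (for instance: the integers with the decimal digits `0` and `1` only). For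
almost all elements `m` of an ARBITRARY dense subset of `C`, ALL integers `s` with `|s - f(m)| ≤ log ^ D N` are good shifts
of one Liouville factor: the correlations of `λ(α n + s)` with arbitrary products of values of the von Mangoldt function at
linear forms and with arbitrary functions bounded by `1` (for example products of values of `λ` at arbitrary other linear
forms) save an arbitrary power of the logarithm. The number of the shifts can be as small as `N ^ ε`.

The minimal real additive energy of the values of polynomials at the integers with missing digits is from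
`Pool.Agent.X31.K1` - `K9` (in this run); the correlations for families with a sparse large spectrum are from
`Pool.Agent.X107.JF` (helper107), the bound for the exponential sums with `λ` is from the starting files
(`Pool.Agent.H373R2.T7.sup_liou`).
-/

set_option autoImplicit false

namespace Pool.Agent.Results.MP_e6fa8b_nt.MissingDigitShifts

open Finset
open scoped Polynomial

/-- the integers `0 ≤ n < b ^ m` whose digit at `b ^ j` in base `b` is in `𝒟 j`, for all `j < m` -/
def Digits (b : ℕ) (𝒟 : ℕ → Finset ℕ) (m : ℕ) : Finset ℕ :=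
  (range (b ^ m)).filter (fun n => ∀ j < m, n / b ^ j % b ∈ 𝒟 j)

/-- `A` is a subset with at least `#(Digits b 𝒟 m) / log ^ D N` elements of the set `Digits b 𝒟 m`, where all sets `𝒟 j`
of allowed digits have at least two elements; `f` is a real polynomial of degree at most `d`, the coefficient of `x ^ d`
is at most `log ^ D N` and at least `N / (b ^ (d m) log ^ D N)` in absolute value, and `|f| ≤ N` on `A`. -/
def Fam (b d D N m : ℕ) (𝒟 : ℕ → Finset ℕ) (f : ℝ[X]) (A : Finset ℕ) : Prop :=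
  (∀ j, 𝒟 j ⊆ range b ∧ 2 ≤ (𝒟 j).card) ∧
  f.natDegree ≤ d ∧ |f.coeff d| ≤ Real.log N ^ D ∧ (N : ℝ) / Real.log N ^ D ≤ |f.coeff d| * (b : ℝ) ^ (d * m) ∧
  A ⊆ Digits b 𝒟 m ∧ ((Digits b 𝒟 m).card : ℝ) / Real.log N ^ D ≤ A.card ∧ ∀ n ∈ A, |f.eval (n : ℝ)| ≤ N

/-- The Liouville function on the integers, `0` at the integers `m ≤ 0`, with complex values. -/
noncomputable def lam (m : ℤ) : ℂ := if 1 ≤ m then (-1) ^ ArithmeticFunction.cardFactors m.toNat else 0

lemma log_large (B N : ℕ) (h : 3 ^ (B + 2) ≤ N) : ((B + 2 : ℕ) : ℝ) ≤ Real.log N := by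
  have hN : 0 < N := lt_of_lt_of_le (by positivity) h
  have hN0 : (0 : ℝ) < N := by exact_mod_cast hN
  rw [Real.le_log_iff_exp_le hN0]
  have h1 : Real.exp ((B + 2 : ℕ) : ℝ) ≤ (3 : ℝ) ^ (B + 2) := by
    rw [show ((B + 2 : ℕ) : ℝ) = ((B + 2 : ℕ) : ℝ) * 1 by ring, Real.exp_nat_mul]
    exact pow_le_pow_left₀ (Real.exp_pos _).le (by linarith [Real.exp_one_lt_d9]) _
  refine h1.trans ?_
  exact_mod_cast h

lemma dat_of {b d D N m : ℕ} {𝒟 : ℕ → Finset ℕ} {f : ℝ[X]} {A : Finset ℕ} (h : Fam b d D N m 𝒟 f A) :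
    Pool.Agent.X31.CT.Dat b d D N m 𝒟 f A :=
  ⟨h.1, h.2.1, h.2.2.1, h.2.2.2.1, h.2.2.2.2.1, h.2.2.2.2.2.1, h.2.2.2.2.2.2⟩

/-- Let `b, d ≥ 2` and `r`, `B`, `D`, `T`, `U` be natural numbers. For all sufficiently large `N`, every number `M` of
digits, ALL sets `𝒟 j` of allowed digits, ALL real polynomials `f` and every set `A` with `Fam b d D N M 𝒟 f A`: for each
of at most `log ^ T N` indices `l` let `α l ≥ 1`, let `u l j n + h l j`, `j < r`, be arbitrary linear forms with
non-negative coefficients `≤ N ^ B`, and let `θ l : ℕ → ℂ` be an arbitrary function bounded by `1`. Then, for all but at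
most `#A / log ^ U N` elements `m` of `A`, ALL integers `s` with `|s - f(m)| ≤ log ^ D N` satisfy
`|∑ n ≤ x, θ l n * (∏ j, Λ (u l j * n + h l j)) * λ (α l * n + s)| ≤ N / log ^ U N`
for all `l` and all `x ≤ B N / α l`. -/
theorem result (b d : ℕ) (hb : 2 ≤ b) (hd : 2 ≤ d) (r B D T U : ℕ) :
    ∃ N₀ : ℕ, ∀ N : ℕ, N₀ ≤ N → ∀ (M : ℕ) (𝒟 : ℕ → Finset ℕ) (f : ℝ[X]) (A : Finset ℕ), Fam b d D N M 𝒟 f A →
      ∀ J : ℕ, (J : ℝ) ≤ Real.log N ^ T → ∀ (α : Fin J → ℕ) (u h : Fin J → Fin r → ℕ) (θ : Fin J → ℕ → ℂ),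
      (∀ l, 1 ≤ α l) → (∀ l j, u l j ≤ N ^ B ∧ h l j ≤ N ^ B) → (∀ l n, ‖θ l n‖ ≤ 1) →
      ∃ E : Finset ℕ, (E.card : ℝ) ≤ A.card / Real.log N ^ U ∧ ∀ m ∈ A, m ∉ E →
        ∀ s : ℤ, |(s : ℝ) - f.eval (m : ℝ)| ≤ Real.log N ^ D → ∀ l, ∀ x : ℕ, α l * x ≤ B * N →
          ‖∑ n ∈ Icc 1 x, θ l n * (∏ j, (ArithmeticFunction.vonMangoldt (u l j * n + h l j) : ℂ)) *
            lam (α l * n + s)‖ ≤ N / Real.log N ^ U := by
  classical
  obtain ⟨N₁, h1⟩ := (Pool.Agent.X31.Sch_dg hb hd).corr Pool.Agent.H373R2.T7.liR (fun n => by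
    unfold Pool.Agent.H373R2.T7.liR
    rw [norm_pow, norm_neg, norm_one, one_pow]) Pool.Agent.H373R2.T7.sup_liou B D (T + 2 * r) U
  obtain ⟨P3, hP3⟩ : ∃ P3, P3 = 3 ^ (B + 2) := ⟨_, rfl⟩
  refine ⟨N₁ + P3 + B + 3, fun N hN M 𝒟 f A hfam J hJ α u h θ hα hah hθ => ?_⟩
  have hlogB := log_large B N (by rw [← hP3]; omega)
  have hlog1 : 1 ≤ Real.log N := by
    have : (1 : ℝ) ≤ ((B + 2 : ℕ) : ℝ) := by exact_mod_cast (by omega : 1 ≤ B + 2)
    linarith
  have hΛ : ∀ l j n, n ≤ B * N → |ArithmeticFunction.vonMangoldt (u l j * n + h l j)| ≤ Real.log N ^ 2 := by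
    intro l j n hn
    rw [abs_of_nonneg ArithmeticFunction.vonMangoldt_nonneg]
    refine ArithmeticFunction.vonMangoldt_le_log.trans ?_
    have e1 : u l j * n + h l j ≤ N ^ (B + 2) := by
      calc u l j * n + h l j ≤ N ^ B * (B * N) + N ^ B := add_le_add (Nat.mul_le_mul (hah l j).1 hn) (hah l j).2
        _ ≤ N ^ B * (B * N) + N ^ B * N := by
            apply add_le_add le_rfl (Nat.le_mul_of_pos_right _ (by omega))
        _ = N ^ B * ((B + 1) * N) := by ring
        _ ≤ N ^ B * (N * N) := Nat.mul_le_mul_left _ (Nat.mul_le_mul_right _ (by omega))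
        _ = _ := by rw [pow_add]; ring
    rcases Nat.eq_zero_or_pos (u l j * n + h l j) with h0 | h0
    · rw [h0]
      simp only [Nat.cast_zero, Real.log_zero]
      positivity
    · have e2 : Real.log ((u l j * n + h l j : ℕ) : ℝ) ≤ Real.log ((N ^ (B + 2) : ℕ) : ℝ) :=
        Real.log_le_log (by exact_mod_cast h0) (by exact_mod_cast e1)
      refine e2.trans ?_
      rw [Nat.cast_pow, Real.log_pow, pow_two]
      exact mul_le_mul_of_nonneg_right hlogB (by linarith)
  have hJT : (J : ℝ) ≤ Real.log N ^ (T + 2 * r) := hJ.trans (pow_le_pow_right₀ hlog1 (by omega))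
  exact h1 N (by omega) A (fun n => f.eval (n : ℝ)) ⟨M, 𝒟, f, dat_of hfam, fun _ => rfl⟩ J hJT α
    (fun l n => θ l n * ∏ j, (ArithmeticFunction.vonMangoldt (u l j * n + h l j) : ℂ)) hα (by
      intro l n hn1 hn2
      have hn3 : n ≤ B * N := (Nat.le_mul_of_pos_left _ (by have := hα l; omega)).trans hn2
      rw [norm_mul, norm_prod]
      have e1 : ∏ j, ‖(ArithmeticFunction.vonMangoldt (u l j * n + h l j) : ℂ)‖ ≤
          ∏ _j : Fin r, Real.log N ^ 2 := by
        apply Finset.prod_le_prod (fun _ _ => norm_nonneg _)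
        intro j _
        rw [Complex.norm_real, Real.norm_eq_abs]
        exact hΛ _ j _ hn3
      rw [prod_const, card_univ, Fintype.card_fin, ← pow_mul] at e1
      calc _ ≤ 1 * Real.log N ^ (2 * r) := mul_le_mul (hθ _ _) e1 (prod_nonneg fun _ _ => norm_nonneg _) zero_le_one
        _ = Real.log N ^ (2 * r) := one_mul _
        _ ≤ _ := pow_le_pow_right₀ hlog1 (by omega))

end Pool.Agent.Results.MP_e6fa8b_nt.MissingDigitShifts
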