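import Pool.Agent.X107.JF.Rand

/-!
# Joint correlations of the von Mangoldt and Liouville functions with one shift from a thin family

The exponential sum bounds for the Liouville function (Davenport's theorem with arbitrary powers of the
logarithm, `Pool.Agent.H373R2.T7.sup_liou`) and the moments of Weyl sums (`Pool.Agent.H373R2.T7.moment`) are
from the starting files.
From Mathlib: `Polynomial ℤ`: the polynomials with integer coefficients; `f.eval m`: the value at `m`;
`Finset.Icc 1 x`: the integers from `1` to `x`; `Finset.range M`: the integers from `0` to `M - 1`.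
-/

namespace Pool.Agent.Results.MP_e6fa8b_nt.ThinFamilies
open Finset

/-- The Liouville function on the integers, `0` at the integers `m ≤ 0`, with complex values. -/
noncomputable def lam (m : ℤ) : ℂ := if 1 ≤ m then (-1) ^ ArithmeticFunction.cardFactors m.toNat else 0

/-- The large spectrum: the number of the frequencies `t / M`, `0 ≤ t < M`, at which the exponential sum
`∑ i, exp (2 π i t v_i / M)` of the family `v` is larger than `η` times the number of its members. -/
noncomputable def spectrum {ι : Type} [Fintype ι] (v : ι → ℤ) (M : ℕ) (η : ℝ) : ℕ :=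
  ((range M).filter (fun t : ℕ => η * (Fintype.card ι : ℝ) <
    ‖∑ i, Complex.exp (2 * Real.pi * Complex.I * ((t * (v i / M) : ℝ) : ℂ))‖)).card

/-- The additive energy of order `h` of the family `v`: the number of the solutions of
`v (p 1) + ... + v (p h) = v (q 1) + ... + v (q h)`. -/
def energy (h : ℕ) {ι : Type} [Fintype ι] (v : ι → ℤ) : ℕ :=
  ((univ : Finset ((Fin h → ι) × (Fin h → ι))).filter
    (fun w => ∑ i, v (w.1 i) = ∑ i, v (w.2 i))).card

open Classical in
/-- The family `v` is good at the scale `N`. For each of at most `log ^ T N` indices `l` let `α l ≥ 1`, let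
`a l j n + h l j` for `j < r` be arbitrary linear forms with non-negative coefficients `≤ N ^ B`, and let
`θ l : ℕ → ℂ` be an arbitrary function bounded by `1` (for example a product of values of the Liouville function
at other shifts). Then all but at most `#ι / log ^ U N` of the members `v i` of the family satisfy
`|∑ n ≤ x, θ l n * (∏ j, Λ (a l j * n + h l j)) * λ (α l * n + v i)| ≤ N / log ^ U N`
for all `l` and all `x ≤ B N / α l`. -/
def Good (B r T U N : ℕ) {ι : Type} [Fintype ι] (v : ι → ℤ) : Prop :=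
  ∀ J : ℕ, (J : ℝ) ≤ Real.log N ^ T → ∀ (α : Fin J → ℕ) (a h : Fin J → Fin r → ℕ) (θ : Fin J → ℕ → ℂ),
    (∀ l, 1 ≤ α l) → (∀ l j, a l j ≤ N ^ B ∧ h l j ≤ N ^ B) → (∀ l n, ‖θ l n‖ ≤ 1) →
    ((univ.filter (fun i : ι => ¬ ∀ l, ∀ x : ℕ, α l * x ≤ B * N →
      ‖∑ n ∈ Icc 1 x, θ l n * (∏ j, (ArithmeticFunction.vonMangoldt (a l j * n + h l j) : ℂ)) *
        lam (α l * n + v i)‖ ≤ N / Real.log N ^ U)).card : ℝ) ≤ Fintype.card ι / Real.log N ^ U

lemma spectrum_eq {ι : Type} [Fintype ι] (v : ι → ℤ) (M : ℕ) (η : ℝ) :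
    spectrum v M η = Pool.Agent.X107.JF.spec v M η := by
  unfold spectrum Pool.Agent.X107.JF.spec Pool.Agent.X107.JF.ES Pool.Agent.H807R2.Dav.ee
  congr 1

lemma log_large (B N : ℕ) (h : 3 ^ (B + 2) ≤ N) : ((B + 2 : ℕ) : ℝ) ≤ Real.log N := by
  have hN : 0 < N := lt_of_lt_of_le (by positivity) h
  have hN0 : (0 : ℝ) < N := by exact_mod_cast hN
  rw [Real.le_log_iff_exp_le hN0]
  have h1 : Real.exp ((B + 2 : ℕ) : ℝ) ≤ (3 : ℝ) ^ (B + 2) := by
    rw [show ((B + 2 : ℕ) : ℝ) = ((B + 2 : ℕ) : ℝ) * 1 by ring, Real.exp_nat_mul]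
    exact pow_le_pow_left₀ (Real.exp_pos _).le (by linarith [Real.exp_one_lt_d9]) _
  refine h1.trans ?_
  exact_mod_cast h

/-- the general weights contain the weights of the problem -/
lemma good_of_spec (B K r T C U : ℕ) (hB : 1 ≤ B) (hK : 4 * B ≤ K) :
    ∃ N₀ : ℕ, ∀ N : ℕ, N₀ ≤ N → ∀ (ι : Type) [Fintype ι] (v : ι → ℤ), (∀ i, |v i| ≤ B * N) →
    (Pool.Agent.X107.JF.spec v (K * N)
      (1 / Real.log N ^ (4 * (2 * U + 2 * (T + 2 * r) + 3) + 1)) : ℝ) ≤ Real.log N ^ C →
    Good B r T U N v := by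
  classical
  obtain ⟨N₁, h1⟩ := Pool.Agent.X107.JF.fam_main Pool.Agent.H373R2.T7.liR (fun n => by
    unfold Pool.Agent.H373R2.T7.liR
    rw [norm_pow, norm_neg, norm_one, one_pow]) Pool.Agent.H373R2.T7.sup_liou B K (T + 2 * r) C U hB hK
  obtain ⟨P3, hP3⟩ : ∃ P3, P3 = 3 ^ (B + 2) := ⟨_, rfl⟩
  refine ⟨N₁ + P3 + B + 3, fun N hN ι _ v hv hs J hJ α a h θ hα hah hθ => ?_⟩
  have hlogB := log_large B N (by rw [← hP3]; omega)
  have hlog1 : 1 ≤ Real.log N := by
    have : (1 : ℝ) ≤ ((B + 2 : ℕ) : ℝ) := by exact_mod_cast (by omega : 1 ≤ B + 2)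
    linarith
  have hΛ : ∀ l j n, n ≤ B * N → |ArithmeticFunction.vonMangoldt (a l j * n + h l j)| ≤ Real.log N ^ 2 := by
    intro l j n hn
    rw [abs_of_nonneg ArithmeticFunction.vonMangoldt_nonneg]
    refine ArithmeticFunction.vonMangoldt_le_log.trans ?_
    have e1 : a l j * n + h l j ≤ N ^ (B + 2) := by
      calc a l j * n + h l j ≤ N ^ B * (B * N) + N ^ B := add_le_add (Nat.mul_le_mul (hah l j).1 hn) (hah l j).2
        _ ≤ N ^ B * (B * N) + N ^ B * N := by
            apply add_le_add le_rfl (Nat.le_mul_of_pos_right _ (by omega))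
        _ = N ^ B * ((B + 1) * N) := by ring
        _ ≤ N ^ B * (N * N) := Nat.mul_le_mul_left _ (Nat.mul_le_mul_right _ (by omega))
        _ = _ := by rw [pow_add]; ring
    rcases Nat.eq_zero_or_pos (a l j * n + h l j) with h0 | h0
    · rw [h0]
      simp only [Nat.cast_zero, Real.log_zero]
      positivity
    · have e2 : Real.log ((a l j * n + h l j : ℕ) : ℝ) ≤ Real.log ((N ^ (B + 2) : ℕ) : ℝ) :=
        Real.log_le_log (by exact_mod_cast h0) (by exact_mod_cast e1)
      refine e2.trans ?_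
      rw [Nat.cast_pow, Real.log_pow, pow_two]
      exact mul_le_mul_of_nonneg_right hlogB (by linarith)
  have hJT : (J : ℝ) ≤ Real.log N ^ (T + 2 * r) := hJ.trans (pow_le_pow_right₀ hlog1 (by omega))
  have key := h1 N (by omega) ι v hv hs J hJT α
    (fun l n => θ l n * ∏ j, (ArithmeticFunction.vonMangoldt (a l j * n + h l j) : ℂ)) hα (by
      intro l n hn1 hn2
      have hn3 : n ≤ B * N := (Nat.le_mul_of_pos_left _ (by have := hα l; omega)).trans hn2
      rw [norm_mul, norm_prod]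
      have e1 : ∏ j, ‖(ArithmeticFunction.vonMangoldt (a l j * n + h l j) : ℂ)‖ ≤
          ∏ _j : Fin r, Real.log N ^ 2 := by
        apply prod_le_prod (fun _ _ => norm_nonneg _)
        intro j _
        rw [Complex.norm_real, Real.norm_eq_abs]
        exact hΛ _ j _ hn3
      rw [prod_const, card_univ, Fintype.card_fin, ← pow_mul] at e1
      calc _ ≤ 1 * Real.log N ^ (2 * r) := mul_le_mul (hθ _ _) e1 (prod_nonneg fun _ _ => norm_nonneg _) zero_le_one
        _ = Real.log N ^ (2 * r) := one_mul _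
        _ ≤ _ := pow_le_pow_right₀ hlog1 (by omega))
  exact key

lemma Good.mono {B B' r T U N : ℕ} {ι : Type} [Fintype ι] {v : ι → ℤ} (h : Good B' r T U N v)
    (hBB : B ≤ B') (hN : 1 ≤ N) : Good B r T U N v := by
  classical
  intro J hJ α a b θ hα hab hθ
  refine le_trans ?_ (h J hJ α a b θ hα (fun l j => ⟨(hab l j).1.trans (Nat.pow_le_pow_right hN hBB),
    (hab l j).2.trans (Nat.pow_le_pow_right hN hBB)⟩) hθ)
  have : (univ.filter (fun i : ι => ¬ ∀ l, ∀ x : ℕ, α l * x ≤ B * N →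
      ‖∑ n ∈ Icc 1 x, θ l n * (∏ j, (ArithmeticFunction.vonMangoldt (a l j * n + b l j) : ℂ)) *
        lam (α l * n + v i)‖ ≤ N / Real.log N ^ U)) ⊆
      (univ.filter (fun i : ι => ¬ ∀ l, ∀ x : ℕ, α l * x ≤ B' * N →
      ‖∑ n ∈ Icc 1 x, θ l n * (∏ j, (ArithmeticFunction.vonMangoldt (a l j * n + b l j) : ℂ)) *
        lam (α l * n + v i)‖ ≤ N / Real.log N ^ U)) := by
    intro i hi
    rw [mem_filter] at hi ⊢
    exact ⟨hi.1, fun hh => hi.2 fun l x hx => hh l x (hx.trans (Nat.mul_le_mul_right _ hBB))⟩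
  exact_mod_cast card_le_card this

open Classical in
/-- Let `r`, `B ≥ 1`, `T` and `U` be fixed.

* (Sparse large spectrum) There is an `A` such that for all `K ≥ 4 B` and `C` and all large `N` the following
  holds. Every finite family `v` of integers in `[-B N, B N]` for which the large spectrum at the level
  `1 / log ^ A N` and the modulus `K N` has at most `log ^ C N` elements is good at the scale `N`.
* (Small energy) For all `h` and `C` and all large `N` every finite family `v` of integers in `[-B N, B N]` whose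
  additive energy of order `h` is at most `log ^ C N` times `(#ι) ^ (2 h) / N` is good at the scale `N`.
* (Polynomial values) For every polynomial `f` of degree `d ≥ 1` with integer coefficients, all large `x` and all
  `|c| ≤ B x ^ d` the family of the `x` shifts `c + f 1, ..., c + f x` is good at the scale `N = x ^ d`.
* (Random families) There is an `A` such that for all large `N` and all `k ≥ log ^ A N` all but at most
  `N ^ k / N` of the `N ^ k` vectors of `k` integers in `[1, N]` are good at the scale `N`. -/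
theorem result (r B T U : ℕ) (hB : 1 ≤ B) :
    (∃ A : ℕ, ∀ K C : ℕ, 4 * B ≤ K → ∃ N₀ : ℕ, ∀ N : ℕ, N₀ ≤ N → ∀ (ι : Type) [Fintype ι] (v : ι → ℤ),
      (∀ i, |v i| ≤ B * N) → (spectrum v (K * N) (1 / Real.log N ^ A) : ℝ) ≤ Real.log N ^ C →
      Good B r T U N v) ∧
    (∀ h C : ℕ, ∃ N₀ : ℕ, ∀ N : ℕ, N₀ ≤ N → ∀ (ι : Type) [Fintype ι] (v : ι → ℤ),
      (∀ i, |v i| ≤ B * N) → (energy h v : ℝ) * N ≤ Real.log N ^ C * (Fintype.card ι : ℝ) ^ (2 * h) →
      Good B r T U N v) ∧
    (∀ f : Polynomial ℤ, 1 ≤ f.natDegree → ∃ x₀ : ℕ, ∀ x : ℕ, x₀ ≤ x → ∀ c : ℤ,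
      |c| ≤ B * ((x ^ f.natDegree : ℕ) : ℤ) →
      Good B r T U (x ^ f.natDegree) (fun m : Fin x => c + f.eval (((m : ℕ) : ℤ) + 1))) ∧
    (∃ A N₀ : ℕ, ∀ N : ℕ, N₀ ≤ N → ∀ k : ℕ, Real.log N ^ A ≤ k →
      (((univ : Finset (Fin k → Fin N)).filter (fun v => ¬
        Good B r T U N (fun i : Fin k => ((v i : ℕ) : ℤ) + 1))).card : ℝ) ≤ (N : ℝ) ^ k / N) := by
  obtain ⟨A, hA⟩ : ∃ A, A = 4 * (2 * U + 2 * (T + 2 * r) + 3) + 1 := ⟨_, rfl⟩
  refine ⟨⟨A, fun K C hK => ?_⟩, fun h C => ?_, fun f hf => ?_, ?_⟩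
  · obtain ⟨N₀, h0⟩ := good_of_spec B K r T C U hB hK
    refine ⟨N₀, fun N hN ι _ v hv hs => h0 N hN ι v hv ?_⟩
    rw [spectrum_eq, hA] at hs
    exact hs
  · have hK : 4 * B ≤ 4 * B * (h + 1) := Nat.le_mul_of_pos_right _ (by omega)
    obtain ⟨N₀, h0⟩ := good_of_spec B (4 * B * (h + 1)) r T (C + A * (2 * h) + 1) U hB hK
    obtain ⟨N₁, h1⟩ := Pool.Agent.H373R2.T7.ev_L' (4 * (B : ℝ) * (h + 1) + 1)
    refine ⟨N₀ + N₁ + 3, fun N hN ι _ v hv hE => h0 N (by omega) ι v hv ?_⟩
    have hL := h1 N (by omega)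
    have hp : 0 ≤ 4 * (B : ℝ) * (h + 1) := by positivity
    have := Pool.Agent.X107.JF.spec_energy v B N h C A hB (by omega) (by linarith) (by linarith) hv hE
    rw [hA] at this
    rw [hA]
    exact this
  · obtain ⟨B', hB'⟩ : ∃ B', B' = B + Pool.Agent.H373R2.T7.cf f := ⟨_, rfl⟩
    obtain ⟨C, x₁, h1⟩ := Pool.Agent.X107.JF.spec_poly f hf (4 * B') A (by omega)
    obtain ⟨N₀, h0⟩ := good_of_spec B' (4 * B') r T C U (by omega) le_rfl
    refine ⟨N₀ + x₁ + 1, fun x hx c hc => ?_⟩
    have hxN : x ≤ x ^ f.natDegree := Nat.le_self_pow (by omega) x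
    apply Good.mono (B' := B') _ (by omega) (by omega)
    apply h0 (x ^ f.natDegree) (by omega)
    · intro m
      have e1 := Pool.Agent.H373R2.T7.abs_eval_le f ((m : ℕ) + 1) (by omega)
      have e2 : (((m : ℕ) + 1 : ℕ) : ℤ) ^ f.natDegree ≤ ((x ^ f.natDegree : ℕ) : ℤ) := by
        have : ((m : ℕ) + 1) ^ f.natDegree ≤ x ^ f.natDegree := Nat.pow_le_pow_left m.2 _
        exact_mod_cast this
      have e3 : |f.eval (((m : ℕ) : ℤ) + 1)| ≤ (Pool.Agent.H373R2.T7.cf f : ℤ) * ((x ^ f.natDegree : ℕ) : ℤ) := by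
        have e4 : (((m : ℕ) + 1 : ℕ) : ℤ) = ((m : ℕ) : ℤ) + 1 := by push_cast; ring
        rw [← e4]
        exact e1.trans (mul_le_mul_of_nonneg_left e2 (by positivity))
      refine (abs_add_le _ _).trans ((add_le_add hc e3).trans (le_of_eq ?_))
      rw [hB']
      push_cast
      ring
    · have := h1 x (by omega) c
      rw [hA] at this
      exact this
  · obtain ⟨N₁, h1⟩ := Pool.Agent.X107.JF.spec_random (4 * B) A (by omega)
    obtain ⟨N₀, h0⟩ := good_of_spec B (4 * B) r T (A + 1) U hB le_rfl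
    refine ⟨2 * A + 2, N₀ + N₁ + 1, fun N hN k hk => ?_⟩
    refine le_trans ?_ (h1 N (by omega) k hk)
    have hsub : ((univ : Finset (Fin k → Fin N)).filter (fun v => ¬
        Good B r T U N (fun i : Fin k => ((v i : ℕ) : ℤ) + 1))) ⊆
        ((univ : Finset (Fin k → Fin N)).filter (fun v => ¬
      (Pool.Agent.X107.JF.spec (fun i : Fin k => ((v i : ℕ) : ℤ) + 1) (4 * B * N) (1 / Real.log N ^ A) : ℝ) ≤
        Real.log N ^ (A + 1))) := by
      intro v hv
      rw [mem_filter] at hv ⊢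
      refine ⟨hv.1, fun hs => hv.2 ?_⟩
      apply h0 N (by omega)
      · intro i
        have : (v i : ℕ) + 1 ≤ N := (v i).2
        have h2 : (((v i : ℕ) + 1 : ℕ) : ℤ) ≤ B * N := by
          exact_mod_cast this.trans (Nat.le_mul_of_pos_left _ (by omega))
        push_cast at h2
        rw [abs_of_nonneg (by positivity)]
        exact h2
      · rw [← hA]
        exact hs
    exact_mod_cast card_le_card hsub

end Pool.Agent.Results.MP_e6fa8b_nt.ThinFamilies
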